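import Mathlib
import Pool.Agent.N852.MM.Stm

/-!
Project MM, part E (the lower bound), first part: the pigeonhole principle.
-/

namespace Pool.Agent.N868.MM

set_option linter.unusedSectionVars false

open Matrix Module Filter Topology Function
open Pool.Agent.N852 (ic ic_add ic_sub ic_neg)
open Pool.Agent.N852.DD (Bl mem_Bl card_Bl norm_ic_ge norm_ic_le)
open Pool.Agent.N852.MM

variable {V : Type} [DecidableEq V] {n : V → ℕ} {k : ℕ}

/-- The size of the values. -/
theorem val_le (F : Sys n k) : ∃ C : ℝ, 1 ≤ C ∧ ∀ (i : Fin k) (x : Tup n ℝ) (K : ℝ),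
    (∀ v ∈ F.e i, ‖x v‖ ≤ K) → |ev F i x| ≤ C * K ^ (F.e i).card := by
  classical
  refine ⟨1 + ∑ i, ∑ j, |((F.T i j : ℤ) : ℝ)|, ?_, ?_⟩
  · have : (0 : ℝ) ≤ ∑ i, ∑ j, |((F.T i j : ℤ) : ℝ)| := by positivity
    linarith
  intro i x K hx
  have hK : 0 ≤ K ^ (F.e i).card := by
    rcases Finset.eq_empty_or_nonempty (F.e i) with h | ⟨v, hv⟩
    · rw [h, Finset.card_empty, pow_zero]
      exact zero_le_one
    · exact pow_nonneg ((norm_nonneg _).trans (hx v hv)) _
  have h1 : ∀ j : (∀ v : F.e i, Fin (n v)), |((F.T i j : ℤ) : ℝ) * ∏ v : F.e i, x v (j v)| ≤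
      |((F.T i j : ℤ) : ℝ)| * K ^ (F.e i).card := by
    intro j
    rw [abs_mul, Finset.abs_prod]
    gcongr
    calc ∏ v : F.e i, |x v (j v)| ≤ ∏ v : F.e i, K :=
          Finset.prod_le_prod (fun _ _ => abs_nonneg _)
            (fun v _ => (norm_le_pi_norm (x v) (j v)).trans (hx v v.2))
      _ = K ^ (F.e i).card := by rw [Finset.prod_const, Finset.card_univ, Fintype.card_coe]
  unfold ev
  refine (Finset.abs_sum_le_sum_abs _ _).trans ((Finset.sum_le_sum fun j _ => h1 j).trans ?_)
  rw [← Finset.sum_mul]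
  apply mul_le_mul_of_nonneg_right _ hK
  have h4 : ∑ j, |((F.T i j : ℤ) : ℝ)| ≤ ∑ i, ∑ j, |((F.T i j : ℤ) : ℝ)| :=
    Finset.single_le_sum (f := fun i => ∑ j, |((F.T i j : ℤ) : ℝ)|)
      (fun i _ => by positivity) (Finset.mem_univ i)
  linarith

/-- The number of equations. -/
theorem sum_dg [Fintype V] (F : Sys n k) : ∑ v, dg F v = ∑ i, (F.e i).card := by
  have h1 : ∀ v, dg F v = ∑ i : Fin k, if v ∈ F.e i then 1 else 0 := by
    intro v
    unfold dg
    rw [Fintype.card_subtype, Finset.card_filter]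
  have h2 : ∀ i, (F.e i).card = ∑ v : V, if v ∈ F.e i then 1 else 0 := by
    intro i
    rw [← Finset.card_filter, Finset.filter_mem_eq_inter, Finset.univ_inter]
  simp only [h1, h2]
  exact Finset.sum_comm

theorem n_pos {F : Sys n k} {a : V → ℕ} (hv : ∀ v, ∃ i, v ∈ F.e i)
    (ha : ∀ v, a v + dg F v = n v) (t : V) : 0 < n t := by
  obtain ⟨i, hi⟩ := hv t
  have h1 : 0 < dg F t := Fintype.card_pos_iff.2 ⟨⟨i, hi⟩⟩
  have := ha t
  omega

/-- The dimensions. -/
theorem n_gt {F : Sys n k} {a : V → ℕ} {D : ℕ} (h2 : ∀ i, 2 ≤ (F.e i).card)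
    (hv : ∀ v, ∃ i, v ∈ F.e i) (ha : ∀ v, a v + dg F v = n v) (hRC : RC F D) (u : V) :
    D < n u := by
  obtain ⟨i, hi⟩ := hv u
  obtain ⟨v, hve, hvu⟩ := Finset.exists_mem_ne (h2 i) u
  have h3 := hRC u v hvu.symm (Pi.single i 1) (by
    intro j hj
    by_cases h : j = i
    · subst h
      exact ⟨hi, hve⟩
    · rw [Pi.single_eq_of_ne h] at hj
      exact absurd rfl hj) (by
    intro h
    have := congrFun h i
    simp at this) (fun t => fun _ => 1) (by
    intro t _ _ h
    have := congrFun h ⟨0, n_pos hv ha t⟩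
    simp at this)
  exact h3.trans_le (Matrix.rank_le_width _)

variable [Fintype V]

theorem card_Bl_zero (N : ℕ) : (Bl N 0).card = 1 := by
  unfold Bl
  rw [Fintype.card_piFinset]
  simp

/-- Boxes with vanishing components. -/
theorem card_BxA (A : Finset V) {K : ℝ} (hK : 1 ≤ K) :
    ((Bx n fun v => if v ∈ A then K else 0).card : ℝ) ≤ (3 * K) ^ (∑ v ∈ A, n v) := by
  unfold Bx
  rw [Fintype.card_piFinset]
  push_cast
  have h1 : ∏ v : V, ((Bl (n v) (if v ∈ A then K else 0)).card : ℝ) ≤
      ∏ v : V, if v ∈ A then (3 * K) ^ n v else 1 := by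
    refine Finset.prod_le_prod (fun _ _ => Nat.cast_nonneg _) fun v _ => ?_
    by_cases h : v ∈ A
    · rw [if_pos h, if_pos h]
      exact card_Bl hK
    · rw [if_neg h, if_neg h, card_Bl_zero, Nat.cast_one]
  refine h1.trans (le_of_eq ?_)
  rw [Finset.prod_ite_mem, Finset.univ_inter, Finset.prod_pow_eq_pow_sum]

theorem mem_BxA {A : Finset V} {K : ℝ} (hK : 0 ≤ K) {x : Tup n ℤ} :
    x ∈ (Bx n fun v => if v ∈ A then K else 0) ↔
      (∀ v ∈ A, ‖ic (x v)‖ ≤ K) ∧ ∀ v ∉ A, x v = 0 := by
  rw [mem_Bx]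
  · constructor
    · intro h
      refine ⟨fun v hv => ?_, fun v hv => ?_⟩
      · have := h v
        rwa [if_pos hv] at this
      · have := h v
        rw [if_neg hv] at this
        exact norm_ic_zero this
    · rintro ⟨h1, h2⟩ v
      by_cases hv : v ∈ A
      · rw [if_pos hv]
        exact h1 v hv
      · rw [if_neg hv, h2 v hv, ic_zero, norm_zero]
  · intro v
    split_ifs
    · exact hK
    · exact le_rfl

open Classical in
/-- The partial solutions. -/
noncomputable def SA (F : Sys n k) (K : ℝ) (A : Finset V) : Finset (Tup n ℤ) :=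
  (Bx n fun v => if v ∈ A then K else 0).filter fun x => ∀ i, F.e i ⊆ A → ev F i x = 0

theorem mem_SA {F : Sys n k} {K : ℝ} (hK : 0 ≤ K) {A : Finset V} {x : Tup n ℤ} :
    x ∈ SA F K A ↔ (∀ v ∈ A, ‖ic (x v)‖ ≤ K) ∧ (∀ v ∉ A, x v = 0) ∧
      ∀ i, F.e i ⊆ A → ev F i x = 0 := by
  unfold SA
  rw [Finset.mem_filter, mem_BxA hK, and_assoc]

theorem card_pos_box (N : ℕ) {K : ℝ} (hK : 0 ≤ K) :
    K ^ N ≤ ((Fintype.piFinset fun _ : Fin N => Finset.Icc (0 : ℤ) ⌊K⌋).card : ℝ) := by
  rw [Fintype.card_piFinset]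
  simp only [Finset.prod_const, Finset.card_univ, Fintype.card_fin, Int.card_Icc]
  push_cast
  have h1 : K ≤ (((⌊K⌋ + 1 - 0).toNat : ℕ) : ℝ) := by
    have h2 : (0 : ℤ) ≤ ⌊K⌋ := Int.floor_nonneg.2 hK
    have h3 : (((⌊K⌋ + 1 - 0).toNat : ℕ) : ℤ) = ⌊K⌋ + 1 := by
      rw [Int.toNat_of_nonneg (by omega)]
      ring
    have h4 : (((⌊K⌋ + 1 - 0).toNat : ℕ) : ℝ) = (⌊K⌋ : ℝ) + 1 := by
      have : (((⌊K⌋ + 1 - 0).toNat : ℤ) : ℝ) = ((⌊K⌋ + 1 : ℤ) : ℝ) := by exact_mod_cast h3
      push_cast at this
      exact_mod_cast this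
    rw [h4]
    exact (Int.lt_floor_add_one K).le
  gcongr

theorem pos_box_sub (N : ℕ) {K : ℝ} (hK : 0 ≤ K) {y : Fin N → ℤ}
    (hy : y ∈ Fintype.piFinset fun _ : Fin N => Finset.Icc (0 : ℤ) ⌊K⌋) : ‖ic y‖ ≤ K := by
  rw [norm_ic_le hK]
  intro i
  have h1 := Fintype.mem_piFinset.1 hy i
  rw [Finset.mem_Icc] at h1
  have h2 : (0 : ℝ) ≤ y i := by exact_mod_cast h1.1
  rw [abs_of_nonneg h2]
  calc (y i : ℝ) ≤ (⌊K⌋ : ℝ) := by exact_mod_cast h1.2
    _ ≤ K := Int.floor_le K

/-- The pigeonhole principle for one vector. -/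
theorem pig_one {F : Sys n k} {C K : ℝ} (hC : 1 ≤ C) (hK : 1 ≤ K)
    (hval : ∀ (i : Fin k) (x : Tup n ℝ) (K : ℝ), (∀ v ∈ F.e i, ‖x v‖ ≤ K) →
      |ev F i x| ≤ C * K ^ (F.e i).card) (I : Finset (Fin k)) (v : V) (hI : ∀ i ∈ I, v ∈ F.e i)
    (x : Tup n ℤ) (hx : ∀ u, ‖ic (x u)‖ ≤ K) :
    K ^ n v ≤ (∏ i ∈ I, (3 * C * K ^ (F.e i).card)) *
      (((Bl (n v) K).filter fun z => ∀ i ∈ I, ev F i (update x v z) = 0).card : ℝ) := by
  classical
  have hK0 : 0 < K := by linarith
  set Y₀ := Fintype.piFinset fun _ : Fin (n v) => Finset.Icc (0 : ℤ) ⌊K⌋ with hY₀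
  set f : (Fin (n v) → ℤ) → (Fin k → ℤ) := fun z i => if i ∈ I then ev F i (update x v z) else 0
    with hf
  set T : Finset (Fin k → ℤ) := Fintype.piFinset fun i => if i ∈ I then
    Finset.Icc (-⌊C * K ^ (F.e i).card⌋) ⌊C * K ^ (F.e i).card⌋ else {0} with hT
  set R := (Bl (n v) K).filter fun z => ∀ i ∈ I, ev F i (update x v z) = 0 with hR
  have hCK : ∀ i : Fin k, 1 ≤ C * K ^ (F.e i).card := fun i =>
    one_le_mul_of_one_le_of_one_le hC (one_le_pow₀ hK)
  have hmaps : ∀ z ∈ Y₀, f z ∈ T := by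
    intro z hz
    rw [hT, Fintype.mem_piFinset]
    intro i
    simp only [hf]
    by_cases hi : i ∈ I
    · rw [if_pos hi, if_pos hi]
      have h1 : |((ev F i (update x v z) : ℤ) : ℝ)| ≤ C * K ^ (F.e i).card := by
        rw [← ev_iT]
        apply hval
        intro u _
        rw [iT_update]
        by_cases hu : u = v
        · subst hu
          rw [update_self]
          exact pos_box_sub _ hK0.le hz
        · rw [update_of_ne hu]
          exact hx u
      rw [abs_le] at h1
      rw [Finset.mem_Icc, neg_le, Int.le_floor, Int.le_floor]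
      push_cast
      constructor <;> linarith
    · rw [if_neg hi, if_neg hi, Finset.mem_singleton]
  have hTc : (T.card : ℝ) ≤ ∏ i ∈ I, (3 * C * K ^ (F.e i).card) := by
    rw [hT, Fintype.card_piFinset]
    push_cast
    have h1 : ∏ i : Fin k, (((if i ∈ I then
        Finset.Icc (-⌊C * K ^ (F.e i).card⌋) ⌊C * K ^ (F.e i).card⌋ else {0} : Finset ℤ)).card : ℝ) ≤
        ∏ i : Fin k, if i ∈ I then (3 * C * K ^ (F.e i).card) else 1 := by
      refine Finset.prod_le_prod (fun _ _ => Nat.cast_nonneg _) fun i _ => ?_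
      by_cases hi : i ∈ I
      · rw [if_pos hi, if_pos hi, Int.card_Icc]
        have h2 : (0 : ℤ) ≤ ⌊C * K ^ (F.e i).card⌋ := Int.floor_nonneg.2 (by linarith [hCK i])
        have h3 : (((⌊C * K ^ (F.e i).card⌋ + 1 - -⌊C * K ^ (F.e i).card⌋).toNat : ℕ) : ℝ) =
            2 * (⌊C * K ^ (F.e i).card⌋ : ℝ) + 1 := by
          have h4 : (((⌊C * K ^ (F.e i).card⌋ + 1 - -⌊C * K ^ (F.e i).card⌋).toNat : ℕ) : ℤ) =
            ⌊C * K ^ (F.e i).card⌋ + 1 - -⌊C * K ^ (F.e i).card⌋ := Int.toNat_of_nonneg (by omega)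
          have h5 : ((((⌊C * K ^ (F.e i).card⌋ + 1 - -⌊C * K ^ (F.e i).card⌋).toNat : ℕ) : ℤ) : ℝ) =
            ((⌊C * K ^ (F.e i).card⌋ + 1 - -⌊C * K ^ (F.e i).card⌋ : ℤ) : ℝ) := by rw [h4]
          push_cast at h5
          rw [h5]
          ring
        rw [h3]
        have h6 := Int.floor_le (C * K ^ (F.e i).card)
        have h7 := hCK i
        linarith
      · rw [if_neg hi, if_neg hi, Finset.card_singleton, Nat.cast_one]
    refine h1.trans (le_of_eq ?_)
    rw [Finset.prod_ite_mem, Finset.univ_inter]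
  have hfib : ∀ w ∈ T, ((Y₀.filter fun z => f z = w).card : ℝ) ≤ (R.card : ℝ) := by
    intro w _
    rcases Finset.eq_empty_or_nonempty (Y₀.filter fun z => f z = w) with h1 | ⟨z₀, hz₀⟩
    · rw [h1, Finset.card_empty, Nat.cast_zero]
      positivity
    · rw [Finset.mem_filter] at hz₀
      have h2 : (Y₀.filter fun z => f z = w).card ≤ R.card := by
        apply Finset.card_le_card_of_injOn (fun z => z - z₀)
        · intro z hz
          rw [Finset.mem_coe, Finset.mem_filter] at hz
          rw [Finset.mem_coe, hR, Finset.mem_filter, mem_Bl hK0.le]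
          constructor
          · rw [norm_ic_le hK0.le]
            intro l
            have e1 := Fintype.mem_piFinset.1 hz.1 l
            have e2 := Fintype.mem_piFinset.1 hz₀.1 l
            rw [Finset.mem_Icc] at e1 e2
            have e3 : |z l - z₀ l| ≤ ⌊K⌋ := by
              rw [abs_le]
              constructor <;> omega
            have e4 : ((|z l - z₀ l| : ℤ) : ℝ) ≤ (⌊K⌋ : ℝ) := by exact_mod_cast e3
            rw [Int.cast_abs] at e4
            exact e4.trans (Int.floor_le K)
          · intro i hi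
            have e1 := congrFun (hz.2.trans hz₀.2.symm) i
            simp only [hf] at e1
            rw [if_pos hi, if_pos hi, ev_update (hI i hi), ev_update (hI i hi)] at e1
            rw [ev_update (hI i hi), dotProduct_sub, e1, sub_self]
        · intro y _ y' _ h
          exact sub_left_injective h
      exact_mod_cast h2
  calc K ^ n v ≤ (Y₀.card : ℝ) := card_pos_box (n v) hK0.le
    _ = ∑ w ∈ T, ((Y₀.filter fun z => f z = w).card : ℝ) := by
        rw [Finset.card_eq_sum_card_fiberwise hmaps]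
        push_cast
        rfl
    _ ≤ ∑ w ∈ T, (R.card : ℝ) := Finset.sum_le_sum hfib
    _ = (T.card : ℝ) * (R.card : ℝ) := by rw [Finset.sum_const, nsmul_eq_mul]
    _ ≤ _ := by gcongr

/-- **The pigeonhole principle.** -/
theorem pigeon (F : Sys n k) (h2 : ∀ i, 2 ≤ (F.e i).card) : ∃ C : ℝ, 1 ≤ C ∧ ∀ K : ℝ, 1 ≤ K →
    K ^ (∑ v, n v) ≤ C * K ^ (∑ i, (F.e i).card) * ((SA F K Finset.univ).card : ℝ) := by
  classical
  obtain ⟨C, hC, hval⟩ := val_le F
  refine ⟨(3 * C) ^ k, one_le_pow₀ (by linarith), ?_⟩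
  intro K hK
  have hK0 : 0 < K := by linarith
  have key : ∀ A : Finset V, K ^ (∑ v ∈ A, n v) ≤
      (∏ i ∈ Finset.univ.filter (fun i => F.e i ⊆ A), (3 * C * K ^ (F.e i).card)) *
        ((SA F K A).card : ℝ) := by
    intro A
    induction A using Finset.induction_on with
    | empty =>
      rw [Finset.sum_empty, pow_zero]
      have h3 : Finset.univ.filter (fun i => F.e i ⊆ (∅ : Finset V)) = ∅ := by
        rw [Finset.filter_eq_empty_iff]
        intro i _ h
        have := h2 i
        rw [Finset.subset_empty.1 h] at this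
        simp at this
      have h4 : (0 : Tup n ℤ) ∈ SA F K ∅ := by
        rw [mem_SA hK0.le]
        refine ⟨fun v hv => absurd hv (Finset.notMem_empty v), fun v _ => rfl, fun i hi => ?_⟩
        have := h2 i
        rw [Finset.subset_empty.1 hi] at this
        simp at this
      have h5 : (1 : ℝ) ≤ (SA F K ∅).card := by
        exact_mod_cast Finset.card_pos.2 ⟨_, h4⟩
      rw [h3, Finset.prod_empty, one_mul]
      exact h5
    | insert v A hv ih =>
      rw [Finset.sum_insert hv, pow_add]
      set I := Finset.univ.filter (fun i : Fin k => F.e i ⊆ insert v A ∧ v ∈ F.e i) with hI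
      have hI' : ∀ i ∈ I, v ∈ F.e i := fun i hi => (Finset.mem_filter.1 hi).2.2
      have hsplit : Finset.univ.filter (fun i => F.e i ⊆ insert v A) =
          I ∪ Finset.univ.filter (fun i => F.e i ⊆ A) := by
        ext i
        rw [Finset.mem_union, hI, Finset.mem_filter, Finset.mem_filter, Finset.mem_filter]
        by_cases hvi : v ∈ F.e i
        · have : ¬ F.e i ⊆ A := fun h => hv (h hvi)
          tauto
        · rw [Finset.subset_insert_iff_of_notMem hvi]
          tauto
      have hdis : Disjoint I (Finset.univ.filter (fun i => F.e i ⊆ A)) := by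
        rw [Finset.disjoint_left]
        intro i hi hi'
        exact hv ((Finset.mem_filter.1 hi').2 (hI' i hi))
      rw [hsplit, Finset.prod_union hdis]
      set fib : Tup n ℤ → Finset (Fin (n v) → ℤ) := fun x =>
        (Bl (n v) K).filter fun z => ∀ i ∈ I, ev F i (update x v z) = 0 with hfib
      have h3 : ((SA F K A).sigma fib).card ≤ (SA F K (insert v A)).card := by
        apply Finset.card_le_card_of_injOn (fun p => update p.1 v p.2)
        · rintro ⟨x, z⟩ hp
          rw [Finset.mem_coe, Finset.mem_sigma, mem_SA hK0.le] at hp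
          simp only [hfib] at hp
          obtain ⟨⟨h4, h5, h6⟩, h7⟩ := hp
          rw [Finset.mem_filter, mem_Bl hK0.le] at h7
          rw [Finset.mem_coe, mem_SA hK0.le]
          refine ⟨fun u hu => ?_, fun u hu => ?_, fun i hi => ?_⟩
          · by_cases huv : u = v
            · subst huv
              simp only [update_self]
              exact h7.1
            · simp only [update_of_ne huv]
              exact h4 u (Finset.mem_of_mem_insert_of_ne hu huv)
          · rw [Finset.mem_insert, not_or] at hu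
            simp only [update_of_ne hu.1]
            exact h5 u hu.2
          · by_cases hvi : v ∈ F.e i
            · exact h7.2 i (Finset.mem_filter.2 ⟨Finset.mem_univ _, hi, hvi⟩)
            · simp only [ev_update_not hvi]
              exact h6 i ((Finset.subset_insert_iff_of_notMem hvi).1 hi)
        · rintro ⟨x, z⟩ hp ⟨x', z'⟩ hp' h
          rw [Finset.mem_coe, Finset.mem_sigma, mem_SA hK0.le] at hp hp'
          simp only at h hp hp'
          have h8 : z = z' := by
            have := congrFun h v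
            rwa [update_self, update_self] at this
          have h9 : x = x' := by
            have e1 : x = update (update x v z) v 0 := by
              rw [update_idem]
              have := hp.1.2.1 v hv
              rw [← this, update_eq_self]
            have e2 : x' = update (update x' v z') v 0 := by
              rw [update_idem]
              have := hp'.1.2.1 v hv
              rw [← this, update_eq_self]
            rw [e1, e2, h]
          subst h8
          subst h9
          rfl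
      rw [Finset.card_sigma] at h3
      have h4 : ∀ x ∈ SA F K A, K ^ n v ≤ (∏ i ∈ I, (3 * C * K ^ (F.e i).card)) *
          ((fib x).card : ℝ) := by
        intro x hx
        rw [mem_SA hK0.le] at hx
        refine pig_one hC hK hval I v hI' x ?_
        intro u
        by_cases hu : u ∈ A
        · exact hx.1 u hu
        · rw [hx.2.1 u hu, ic_zero, norm_zero]
          exact hK0.le
      have hP1 : 0 ≤ ∏ i ∈ I, (3 * C * K ^ (F.e i).card) := by positivity
      have hP2 : 0 ≤ ∏ i ∈ Finset.univ.filter (fun i => F.e i ⊆ A),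
        (3 * C * K ^ (F.e i).card) := by positivity
      calc K ^ n v * K ^ (∑ u ∈ A, n u)
          ≤ K ^ n v * ((∏ i ∈ Finset.univ.filter (fun i => F.e i ⊆ A),
            (3 * C * K ^ (F.e i).card)) * ((SA F K A).card : ℝ)) := by gcongr
        _ = (∏ i ∈ Finset.univ.filter (fun i => F.e i ⊆ A), (3 * C * K ^ (F.e i).card)) *
            ∑ x ∈ SA F K A, K ^ n v := by
            rw [Finset.sum_const, nsmul_eq_mul]
            ring
        _ ≤ (∏ i ∈ Finset.univ.filter (fun i => F.e i ⊆ A), (3 * C * K ^ (F.e i).card)) *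
            ∑ x ∈ SA F K A, (∏ i ∈ I, (3 * C * K ^ (F.e i).card)) * ((fib x).card : ℝ) := by
            gcongr with x hx
            exact h4 x hx
        _ = (∏ i ∈ I, (3 * C * K ^ (F.e i).card)) *
            (∏ i ∈ Finset.univ.filter (fun i => F.e i ⊆ A), (3 * C * K ^ (F.e i).card)) *
            ((∑ x ∈ SA F K A, (fib x).card : ℕ) : ℝ) := by
            rw [← Finset.mul_sum]
            push_cast
            ring
        _ ≤ _ := by gcongr
  refine (key Finset.univ).trans (le_of_eq ?_)
  have h3 : Finset.univ.filter (fun i => F.e i ⊆ (Finset.univ : Finset V)) = Finset.univ := by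
    rw [Finset.filter_true_of_mem]
    intro i _
    exact Finset.subset_univ _
  rw [h3, Finset.prod_mul_distrib, Finset.prod_const, Finset.card_univ, Fintype.card_fin,
    Finset.prod_pow_eq_pow_sum]

end Pool.Agent.N868.MM
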