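import Mathlib
import Pool.Agent.N868.MM.LowA

/-!
Project MM, part E (the lower bound), second part: relations and fibres.
-/

namespace Pool.Agent.N868.MM

set_option linter.unusedSectionVars false

open Matrix Module Filter Topology Function
open Pool.Agent.N852 (ic ic_add ic_sub ic_neg)
open Pool.Agent.N852.DD (Bl mem_Bl card_Bl norm_ic_ge norm_ic_le)
open Pool.Agent.H548.BL (lat orth mem_lat mem_orth rc)
open Pool.Agent.N852.MM

section Rel

variable {I : Type} [Fintype I] {N : ℕ}

/-- The map given by vectors. -/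
noncomputable def rlL (w : I → Fin N → ℝ) : EuclideanSpace ℝ I →ₗ[ℝ] (Fin N → ℝ) :=
  (Matrix.of w)ᵀ.mulVecLin ∘ₗ (WithLp.linearEquiv 2 ℝ (I → ℝ)).toLinearMap

/-- The linear relations. -/
noncomputable def rl (w : I → Fin N → ℝ) : Submodule ℝ (EuclideanSpace ℝ I) :=
  LinearMap.ker (rlL w)

theorem rlL_apply (w : I → Fin N → ℝ) (s : EuclideanSpace ℝ I) : rlL w s = ∑ i, s i • w i := by
  change (Matrix.of w)ᵀ *ᵥ (fun i => s i) = _
  funext l
  rw [Finset.sum_apply]
  simp only [mulVec, dotProduct, transpose_apply, of_apply, Pi.smul_apply, smul_eq_mul]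
  exact Finset.sum_congr rfl fun i _ => mul_comm _ _

theorem mem_rl {w : I → Fin N → ℝ} {s : EuclideanSpace ℝ I} : s ∈ rl w ↔ ∑ i, s i • w i = 0 := by
  rw [rl, LinearMap.mem_ker, rlL_apply]

theorem finrank_rl (w : I → Fin N → ℝ) :
    (Matrix.of w).rank + finrank ℝ (rl w) = Fintype.card I := by
  have h1 := LinearMap.finrank_range_add_finrank_ker (rlL w)
  rw [finrank_euclideanSpace] at h1
  have h2 : LinearMap.range (rlL w) = LinearMap.range (Matrix.of w)ᵀ.mulVecLin := by
    unfold rlL
    exact LinearMap.range_comp_of_range_eq_top _ (LinearEquiv.range _)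
  rw [h2] at h1
  rw [← Matrix.rank_transpose]
  exact h1

theorem finrank_rl_smul [DecidableEq I] (w : I → Fin N → ℝ) {b : I → ℝ} (hb : ∀ i, b i ≠ 0) :
    finrank ℝ (rl fun i => b i • w i) = finrank ℝ (rl w) := by
  have h1 := finrank_rl w
  have h2 := finrank_rl fun i => b i • w i
  have h3 : (Matrix.of fun i => b i • w i) = Matrix.diagonal b * Matrix.of w := by
    ext i l
    rw [Matrix.diagonal_mul]
    rfl
  have h4 : (Matrix.of fun i => b i • w i).rank = (Matrix.of w).rank := by
    rw [h3]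
    apply Matrix.rank_mul_eq_right_of_isUnit_det
    rw [Matrix.det_diagonal, isUnit_iff_ne_zero]
    exact Finset.prod_ne_zero_iff.2 fun i _ => hb i
  rw [h4] at h2
  omega

theorem one_le_rl {w : I → Fin N → ℝ} (h : ¬ LinearIndependent ℝ w) : 1 ≤ finrank ℝ (rl w) := by
  by_contra hcon
  have h1 : finrank ℝ (rl w) = 0 := by omega
  rw [Submodule.finrank_eq_zero] at h1
  apply h
  rw [Fintype.linearIndependent_iff]
  intro g hg i
  have h2 : (WithLp.toLp 2 g : EuclideanSpace ℝ I) ∈ rl w := by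
    rw [mem_rl]
    exact hg
  rw [h1, Submodule.mem_bot] at h2
  have h3 := congrArg (fun s : EuclideanSpace ℝ I => s i) h2
  exact h3

theorem rl_le_card (w : I → Fin N → ℝ) : finrank ℝ (rl w) ≤ Fintype.card I := by
  have := finrank_rl w
  omega

/-- A large component. -/
theorem exists_large {s : EuclideanSpace ℝ I} (hs : 1 ≤ ‖s‖) :
    ∃ i, 1 / (Fintype.card I : ℝ) ≤ |s i| := by
  by_contra hcon
  push Not at hcon
  have hI : 0 < Fintype.card I := by
    rw [Fintype.card_pos_iff]
    by_contra h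
    rw [not_nonempty_iff] at h
    have h1 : s = 0 := Subsingleton.elim _ _
    rw [h1, norm_zero] at hs
    linarith
  have hIR : (1 : ℝ) ≤ Fintype.card I := by exact_mod_cast hI
  have h1 : ‖s‖ ^ 2 < 1 := by
    rw [EuclideanSpace.norm_sq_eq]
    have h2 : ∑ i, ‖s i‖ ^ 2 < ∑ _i : I, (1 / (Fintype.card I : ℝ)) ^ 2 := by
      obtain ⟨i₀⟩ := Fintype.card_pos_iff.1 hI
      refine Finset.sum_lt_sum (fun i _ => ?_) ⟨i₀, Finset.mem_univ _, ?_⟩
      · have := hcon i
        rw [Real.norm_eq_abs]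
        gcongr
      · have := hcon i₀
        rw [Real.norm_eq_abs]
        gcongr
    refine h2.trans_le ?_
    rw [Finset.sum_const, Finset.card_univ, nsmul_eq_mul]
    have h3 : (Fintype.card I : ℝ) * (1 / (Fintype.card I : ℝ)) ^ 2 = 1 / Fintype.card I := by
      field_simp
    rw [h3, div_le_one (by linarith)]
    exact hIR
  have h2 : 1 ≤ ‖s‖ ^ 2 := one_le_pow₀ hs
  linarith

end Rel

variable {V : Type} [DecidableEq V] {n : V → ℕ} {k : ℕ} {F : Sys n k}

theorem finrank_orth_rl {a : V → ℕ} (ha : ∀ v, a v + dg F v = n v) (u : V) (y : Tup n ℤ) :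
    finrank ℝ (orth (der F u y)) = a u + finrank ℝ (rl (der F u (iT y))) := by
  have h1 := finrank_rl (der F u (iT y))
  have h0 : der F u (iT y) = fun i => rc (der F u y i) := by
    funext i
    exact dd_iT i.1 u y
  have h3 := LinearMap.finrank_range_add_finrank_ker
    (Matrix.mulVecLin (Matrix.of fun i => rc (der F u y i)))
  rw [finrank_fintype_fun_eq_card, Fintype.card_fin] at h3
  have h4 : finrank ℝ (LinearMap.range (Matrix.mulVecLin (Matrix.of fun i => rc (der F u y i)))) =
      (Matrix.of (der F u (iT y))).rank := by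
    rw [h0]
    rfl
  have h5 := ha u
  unfold dg at h5
  rw [h4] at h3
  unfold orth
  omega

/-- The relations after scaling. -/
theorem finrank_rl_scale (u : V) (c : V → ℝ) (hc : ∀ t, c t ≠ 0) (x : Tup n ℝ) :
    finrank ℝ (rl (der F u fun t => c t • x t)) = finrank ℝ (rl (der F u x)) := by
  classical
  have h1 : (der F u fun t => c t • x t) =
      fun i => (∏ t ∈ (F.e i.1).erase u, c t) • der F u x i := by
    funext i
    exact dd_smul i.1 i.2 c x
  rw [h1]
  exact finrank_rl_smul _ fun i => Finset.prod_ne_zero_iff.2 fun t _ => hc t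

variable [Fintype V]

/-- The number of points of a fibre. -/
theorem card_FX_le {u : V} {y : Tup n ℤ} {K : ℝ} (hK : 1 ≤ K) {b : ℕ}
    (hb : finrank ℝ (orth (der F u y)) ≤ b) : ((FX F u y K).card : ℝ) ≤ (6 * K) ^ b := by
  have h1 := FX_dbl (F := F) hb (ρ := 1 / 2) (B := K) (by norm_num) (by linarith)
  have h2 : (FX F u y (1 / 2)).card ≤ 1 := by
    rw [Finset.card_le_one]
    intro z hz z' hz'
    rw [mem_FX (by norm_num)] at hz hz'
    have e : ∀ w : Fin (n u) → ℤ, ‖ic w‖ ≤ 1 / 2 → w = 0 := by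
      intro w hw
      by_contra h
      have := norm_ic_ge h
      linarith
    rw [e z hz.1, e z' hz'.1]
  have h3 : ((FX F u y (1 / 2)).card : ℝ) ≤ 1 := by exact_mod_cast h2
  have h4 : 3 * K / (1 / 2) = 6 * K := by ring
  rw [h4] at h1
  calc ((FX F u y K).card : ℝ) ≤ (6 * K) ^ b * ((FX F u y (1 / 2)).card : ℝ) := h1
    _ ≤ (6 * K) ^ b * 1 := by gcongr
    _ = _ := mul_one _

end Pool.Agent.N868.MM
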