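import Mathlib
import Pool.Agent.N868.MM.LowB

/-!
Project MM, part E (the lower bound), third part: the bound for one cell.
-/

namespace Pool.Agent.N868.MM

set_option linter.unusedSectionVars false

open Matrix Module Filter Topology Function
open Pool.Agent.N852 (ic ic_add ic_sub ic_neg)
open Pool.Agent.N852.DD (Bl mem_Bl card_Bl norm_ic_ge norm_ic_le)
open Pool.Agent.N852.MM

variable {V : Type} [DecidableEq V] {n : V → ℕ} {k : ℕ} {F : Sys n k}

open Classical in
/-- The coefficients of the forms which depend on both vectors. -/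
noncomputable def sx (F : Sys n k) (u v : V) (s : EuclideanSpace ℝ (Wi F u)) (i : Fin k) : ℝ :=
  if h : u ∈ F.e i then (if v ∈ F.e i then s ⟨i, h⟩ else 0) else 0

theorem sx_ne {u v : V} {s : EuclideanSpace ℝ (Wi F u)} {i : Fin k} (h : sx F u v s i ≠ 0) :
    u ∈ F.e i ∧ v ∈ F.e i := by
  classical
  unfold sx at h
  by_cases h1 : u ∈ F.e i
  · by_cases h2 : v ∈ F.e i
    · exact ⟨h1, h2⟩
    · rw [dif_pos h1, if_neg h2] at h
      exact absurd rfl h
  · rw [dif_neg h1] at h
    exact absurd rfl h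

theorem sx_eq {u v : V} (s : EuclideanSpace ℝ (Wi F u)) (i : Wi F u) (h : v ∈ F.e i.1) :
    sx F u v s i.1 = s i := by
  classical
  unfold sx
  rw [dif_pos i.2, if_pos h]

theorem continuous_sx (u v : V) (i : Fin k) :
    Continuous fun s : EuclideanSpace ℝ (Wi F u) => sx F u v s i := by
  classical
  unfold sx
  by_cases h1 : u ∈ F.e i
  · by_cases h2 : v ∈ F.e i
    · simp only [dif_pos h1, if_pos h2]
      exact (EuclideanSpace.proj (⟨i, h1⟩ : Wi F u) : EuclideanSpace ℝ (Wi F u) →L[ℝ] ℝ).continuous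
    · simp only [dif_pos h1, if_neg h2]
      exact continuous_const
  · simp only [dif_neg h1]
    exact continuous_const

/-- The matrix. -/
noncomputable def Mt (F : Sys n k) (u v : V) (p : EuclideanSpace ℝ (Wi F u) × Tup n ℝ) :
    Matrix (Fin (n u)) (Fin (n v)) ℝ :=
  Matrix.of fun c b => ∑ i, sx F u v p.1 i *
    ev F i (update (update p.2 v (Pi.single b 1)) u (Pi.single c 1))

theorem continuous_ev (i : Fin k) : Continuous fun x : Tup n ℝ => ev F i x := by
  unfold ev
  refine continuous_finset_sum _ fun j _ => Continuous.mul continuous_const ?_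
  refine continuous_finset_prod _ fun w _ => ?_
  exact (continuous_apply (j w)).comp (continuous_apply (w : V))

theorem continuous_Mt (u v : V) : Continuous (Mt F u v) := by
  unfold Mt
  refine continuous_matrix fun c b => ?_
  simp only [Matrix.of_apply]
  refine continuous_finset_sum _ fun i _ => Continuous.mul ?_ ?_
  · exact (continuous_sx u v i).comp continuous_fst
  · refine (continuous_ev i).comp ?_
    exact (continuous_snd.update v continuous_const).update u continuous_const

/-- The linear map. -/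
noncomputable def fL (F : Sys n k) (u v : V) (p : EuclideanSpace ℝ (Wi F u) × Tup n ℝ) :
    (Fin (n v) → ℝ) →L[ℝ] (Fin (n u) → ℝ) :=
  LinearMap.toContinuousLinearMap (Matrix.mulVecLin (Mt F u v p))

theorem continuous_fL (u v : V) : Continuous (fL F u v) := by
  have h1 : Continuous fun A : Matrix (Fin (n u)) (Fin (n v)) ℝ =>
      (LinearMap.toContinuousLinearMap (Matrix.mulVecLin A) :
        (Fin (n v) → ℝ) →L[ℝ] (Fin (n u) → ℝ)) := by
    let L : Matrix (Fin (n u)) (Fin (n v)) ℝ →ₗ[ℝ] ((Fin (n v) → ℝ) →L[ℝ] (Fin (n u) → ℝ)) :=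
      { toFun := fun A => LinearMap.toContinuousLinearMap (Matrix.mulVecLin A)
        map_add' := by
          intro A B
          ext z
          simp [Matrix.add_mulVec]
        map_smul' := by
          intro c A
          ext z
          simp [Matrix.smul_mulVec] }
    exact L.continuous_of_finiteDimensional
  exact h1.comp (continuous_Mt u v)

theorem dd_update_comm {i : Fin k} {u v : V} (huv : v ≠ u) (x : Tup n ℝ)
    (z : Fin (n v) → ℝ) (c : Fin (n u)) :
    dd F i u (update x v z) c = ev F i (update (update x u (Pi.single c 1)) v z) := by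
  unfold dd
  rw [update_comm huv]

/-- The values of the linear map. -/
theorem fL_apply {u v : V} (huv : v ≠ u) (s : EuclideanSpace ℝ (Wi F u)) (x : Tup n ℝ)
    (z : Fin (n v) → ℝ) :
    fL F u v (s, x) z = ∑ i : Fin k, sx F u v s i • dd F i u (update x v z) := by
  funext c
  change (Mt F u v (s, x) *ᵥ z) c = _
  rw [Finset.sum_apply]
  simp only [mulVec, dotProduct, Mt, of_apply, Pi.smul_apply, smul_eq_mul, Finset.sum_mul]
  rw [Finset.sum_comm]
  refine Finset.sum_congr rfl fun i _ => ?_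
  by_cases h : sx F u v s i = 0
  · simp [h]
  · have h1 := (sx_ne h).2
    rw [dd_update_comm huv, ev_update h1]
    unfold dotProduct dd
    rw [Finset.mul_sum]
    refine Finset.sum_congr rfl fun b _ => ?_
    rw [update_comm huv, mul_assoc]

variable [Fintype V]

/-- The compact set of the parameters. -/
def KK (F : Sys n k) (u v : V) (i₀ : Wi F u) : Set (EuclideanSpace ℝ (Wi F u) × Tup n ℝ) :=
  {p | 1 / (Fintype.card (Wi F u) : ℝ) ≤ |p.1 i₀| ∧ ‖p.1‖ ≤ 3 * Fintype.card (Wi F u) ∧
    (∀ t, t ≠ u → t ≠ v → 1 / 2 ≤ ‖p.2 t‖) ∧ ∀ t, ‖p.2 t‖ ≤ 1}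

theorem isCompact_KK (u v : V) (i₀ : Wi F u) : IsCompact (KK F u v i₀) := by
  apply Metric.isCompact_of_isClosed_isBounded
  · have h1 : IsClosed {p : EuclideanSpace ℝ (Wi F u) × Tup n ℝ |
        1 / (Fintype.card (Wi F u) : ℝ) ≤ |p.1 i₀|} := by
      refine isClosed_le continuous_const (continuous_abs.comp ?_)
      exact (EuclideanSpace.proj i₀ : EuclideanSpace ℝ (Wi F u) →L[ℝ] ℝ).continuous.comp
        continuous_fst
    have h2 : IsClosed {p : EuclideanSpace ℝ (Wi F u) × Tup n ℝ |
        ‖p.1‖ ≤ 3 * Fintype.card (Wi F u)} :=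
      isClosed_le (continuous_norm.comp continuous_fst) continuous_const
    have h3 : IsClosed {p : EuclideanSpace ℝ (Wi F u) × Tup n ℝ |
        ∀ t, t ≠ u → t ≠ v → 1 / 2 ≤ ‖p.2 t‖} := by
      simp only [Set.setOf_forall]
      refine isClosed_iInter fun t => isClosed_iInter fun _ => isClosed_iInter fun _ => ?_
      exact isClosed_le continuous_const
        (continuous_norm.comp ((continuous_apply t).comp continuous_snd))
    have h4 : IsClosed {p : EuclideanSpace ℝ (Wi F u) × Tup n ℝ | ∀ t, ‖p.2 t‖ ≤ 1} := by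
      simp only [Set.setOf_forall]
      refine isClosed_iInter fun t => ?_
      exact isClosed_le (continuous_norm.comp ((continuous_apply t).comp continuous_snd))
        continuous_const
    exact h1.inter (h2.inter (h3.inter h4))
  · refine (Metric.isBounded_closedBall (x := (0 : EuclideanSpace ℝ (Wi F u) × Tup n ℝ))
      (r := max (3 * Fintype.card (Wi F u)) 1)).subset ?_
    rintro p ⟨_, h2, _, h4⟩
    rw [mem_closedBall_zero_iff, Prod.norm_def]
    refine max_le_max h2 ?_
    rw [pi_norm_le_iff_of_nonneg zero_le_one]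
    exact h4

/-- The rank of the linear map. -/
theorem rank_fL {D : ℕ} (hRC : RC F D) {u v : V} (huv : v ≠ u) {i₀ : Wi F u} (hi₀ : v ∈ F.e i₀.1)
    {p : EuclideanSpace ℝ (Wi F u) × Tup n ℝ} (hp : p ∈ KK F u v i₀) :
    D + 1 ≤ finrank ℝ (LinearMap.range (fL F u v p : (Fin (n v) → ℝ) →ₗ[ℝ] (Fin (n u) → ℝ))) := by
  obtain ⟨h1, h2, h3, h4⟩ := hp
  have hr : (0 : ℝ) < Fintype.card (Wi F u) := by
    exact_mod_cast Fintype.card_pos_iff.2 ⟨i₀⟩
  have h5 := hRC u v huv.symm (sx F u v p.1) (fun i hi => sx_ne hi) (by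
    intro h
    have h6 := congrFun h i₀.1
    rw [sx_eq _ _ hi₀, Pi.zero_apply] at h6
    rw [h6, abs_zero] at h1
    have : 0 < 1 / (Fintype.card (Wi F u) : ℝ) := by positivity
    linarith) p.2 (by
    intro t ht1 ht2 h
    have := h3 t ht1 ht2
    rw [h, norm_zero] at this
    linarith)
  have h6 : (Mt F u v p).rank = (Mt F u v p)ᵀ.rank := (Matrix.rank_transpose _).symm
  have h7 : D < (Mt F u v p).rank := by
    rw [h6]
    exact h5
  exact h7

/-- The scaled family. -/
noncomputable def xh (l : V → ℕ) (x : Tup n ℤ) : Tup n ℝ := fun t =>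
  ((2 : ℝ) ^ (l t + 1))⁻¹ • iT x t

theorem xh_update (l : V → ℕ) (x : Tup n ℤ) (v : V) (z : Fin (n v) → ℤ) :
    xh l (update x v z) = update (xh l x) v (((2 : ℝ) ^ (l v + 1))⁻¹ • ic z) := by
  funext t
  unfold xh
  rw [iT_update]
  by_cases h : t = v
  · subst h
    rw [update_self, update_self]
  · rw [update_of_ne h, update_of_ne h]

/-- The decomposition of the combination of the derivatives. -/
theorem comb_eq {u v : V} (huv : v ≠ u) (l : V → ℕ) (s : EuclideanSpace ℝ (Wi F u))
    (x y : Tup n ℤ) (h : update x v 0 = update y v 0) :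
    (∑ i : Wi F u, s i • dd F i.1 u (xh l x)) - ∑ i : Wi F u, s i • dd F i.1 u (xh l y) =
      fL F u v (s, xh l (update x v 0)) (((2 : ℝ) ^ (l v + 1))⁻¹ • (ic (x v) - ic (y v))) := by
  classical
  have key : ∀ x : Tup n ℤ, ∑ i : Wi F u, s i • dd F i.1 u (xh l x) =
      fL F u v (s, xh l (update x v 0)) (((2 : ℝ) ^ (l v + 1))⁻¹ • ic (x v)) +
      ∑ i : Wi F u, (if v ∈ F.e i.1 then 0 else s i) • dd F i.1 u (xh l (update x v 0)) := by
    intro x
    rw [fL_apply huv]
    have e1 : ∑ i : Fin k, sx F u v s i • dd F i u (update (xh l (update x v 0)) v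
        (((2 : ℝ) ^ (l v + 1))⁻¹ • ic (x v))) =
        ∑ i : Wi F u, sx F u v s i.1 • dd F i.1 u (xh l x) := by
      have e2 : update (xh l (update x v 0)) v (((2 : ℝ) ^ (l v + 1))⁻¹ • ic (x v)) = xh l x := by
        rw [← xh_update, update_idem, update_eq_self]
      rw [e2]
      have e3 : ∑ i ∈ Finset.univ.filter (fun i : Fin k => u ∈ F.e i),
          sx F u v s i • dd F i u (xh l x) = ∑ i : Fin k, sx F u v s i • dd F i u (xh l x) := by
        apply Finset.sum_subset (Finset.filter_subset _ _)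
        intro i _ hi
        rw [Finset.mem_filter, not_and] at hi
        have h1 : sx F u v s i = 0 := by
          by_contra h2
          exact hi (Finset.mem_univ _) (sx_ne h2).1
        rw [h1, zero_smul]
      rw [← e3]
      exact (Finset.sum_subtype (p := fun i => u ∈ F.e i) _ (by simp) _)
    rw [e1, ← Finset.sum_add_distrib]
    refine Finset.sum_congr rfl fun i _ => ?_
    by_cases hvi : v ∈ F.e i.1
    · rw [sx_eq _ _ hvi, if_pos hvi, zero_smul, add_zero]
    · have h1 : sx F u v s i.1 = 0 := by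
        by_contra h2
        exact hvi (sx_ne h2).2
      rw [h1, if_neg hvi, zero_smul, zero_add]
      congr 1
      funext c
      rw [xh_update, dd_update_comm huv, ev_update_not hvi]
      rfl
  rw [key x, key y, h, add_sub_add_right_eq_sub, ← map_sub, ← smul_sub]

/-- **The bound for one cell.** -/
theorem qbound (hB : CntP) (hC : CptP) {D : ℕ} (hRC : RC F D) (hn : ∀ u, D < n u) {u v : V}
    (huv : v ≠ u) (i₀ : Wi F u) (hi₀ : v ∈ F.e i₀.1) (A : ℝ) (hA : 0 ≤ A) :
    ∃ C : ℝ, 1 ≤ C ∧ ∀ (K : ℝ) (l : V → ℕ) (s₀ : EuclideanSpace ℝ (Wi F u))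
      (Y : Finset (Tup n ℤ)), 1 ≤ K → 1 / (Fintype.card (Wi F u) : ℝ) ≤ |s₀ i₀| →
      ‖s₀‖ ≤ 3 * Fintype.card (Wi F u) →
      (∀ x ∈ Y, x u = 0 ∧ (∀ t, t ≠ u → (2 : ℝ) ^ l t ≤ ‖ic (x t)‖ ∧ ‖ic (x t)‖ ≤ 2 ^ (l t + 1) ∧
        ‖ic (x t)‖ ≤ K) ∧ K * ‖∑ i : Wi F u, s₀ i • dd F i.1 u (xh l x)‖ ≤ A) →
      (Y.card : ℝ) * K ^ (D + 1) ≤ C * K ^ (∑ t ∈ Finset.univ.erase u, n t) := by
  classical
  obtain ⟨c, hc, hP⟩ := hC (EuclideanSpace ℝ (Wi F u) × Tup n ℝ) (KK F u v i₀) (n v) (n u)
    (D + 1) (fL F u v) (isCompact_KK u v i₀) (continuous_fL u v).continuousOn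
    (fun p hp => rank_fL hRC huv hi₀ hp)
  obtain ⟨A', hA'⟩ := (isCompact_KK u v i₀).exists_bound_of_continuousOn
    (continuous_fL (F := F) u v).continuousOn
  set A₁ : ℝ := max (4 * A) A' with hA₁
  have hA₁0 : 0 ≤ A₁ := le_max_of_le_left (by positivity)
  obtain ⟨C, hC1, hcnt⟩ := hB (n v) (n u) (D + 1) c A₁ hc hA₁0
  refine ⟨3 ^ (∑ t ∈ (Finset.univ.erase u).erase v, n t) * C,
    one_le_mul_of_one_le_of_one_le (one_le_pow₀ (by norm_num)) hC1, ?_⟩
  intro K l s₀ Y hK hs1 hs2 hY
  have hK0 : 0 < K := by linarith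
  set E := (Finset.univ.erase u).erase v with hE
  set Y' := Y.image (fun x => update x v 0) with hY'
  have hmaps : ∀ x ∈ Y, update x v 0 ∈ Y' := fun x hx => Finset.mem_image_of_mem _ hx
  have hsub : Y' ⊆ Bx n fun t => if t ∈ E then K else 0 := by
    intro y hy
    obtain ⟨x, hx, rfl⟩ := Finset.mem_image.1 hy
    obtain ⟨h1, h2, _⟩ := hY x hx
    rw [mem_BxA hK0.le]
    constructor
    · intro t ht
      rw [hE, Finset.mem_erase, Finset.mem_erase] at ht
      rw [update_of_ne ht.1]
      exact (h2 t ht.2.1).2.2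
    · intro t ht
      by_cases htv : t = v
      · subst htv
        rw [update_self]
      · rw [update_of_ne htv]
        by_cases htu : t = u
        · subst htu
          exact h1
        · exact absurd (Finset.mem_erase.2 ⟨htv, Finset.mem_erase.2 ⟨htu, Finset.mem_univ _⟩⟩) ht
  have hfib : ∀ y ∈ Y', ((Y.filter fun x => update x v 0 = y).card : ℝ) ≤
      C * K ^ (n v - (D + 1 - 0)) := by
    intro y hy
    obtain ⟨x₀, hx₀, hx₀y⟩ := Finset.mem_image.1 hy
    obtain ⟨h1, h2, _⟩ := hY x₀ hx₀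
    have hp : (s₀, xh l y) ∈ KK F u v i₀ := by
      refine ⟨hs1, hs2, ?_, ?_⟩
      · intro t ht1 ht2
        have h3 := (h2 t ht1).1
        rw [← hx₀y]
        simp only [xh, iT]
        rw [update_of_ne ht2, norm_smul, norm_inv, norm_pow, Real.norm_ofNat, pow_succ]
        rw [← div_eq_inv_mul, le_div_iff₀ (by positivity)]
        linarith
      · intro t
        rw [← hx₀y]
        simp only [xh, iT]
        by_cases ht2 : t = v
        · subst ht2
          rw [update_self, ic_zero, smul_zero, norm_zero]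
          exact zero_le_one
        · rw [update_of_ne ht2]
          by_cases ht1 : t = u
          · subst ht1
            rw [h1, ic_zero, smul_zero, norm_zero]
            exact zero_le_one
          · rw [norm_smul, norm_inv, norm_pow, Real.norm_ofNat, ← div_eq_inv_mul,
              div_le_one (by positivity)]
            exact (h2 t ht1).2.1
    obtain ⟨P, hPr, hPc⟩ := hP _ hp
    have hcard : (Y.filter fun x => update x v 0 = y).card =
        ((Y.filter fun x => update x v 0 = y).image fun x => x v).card := by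
      rw [Finset.card_image_of_injOn]
      intro x hx x' hx' hxx
      rw [Finset.mem_coe, Finset.mem_filter] at hx hx'
      simp only at hxx
      have e1 : x = update (update x v 0) v (x v) := by rw [update_idem, update_eq_self]
      have e2 : x' = update (update x' v 0) v (x' v) := by rw [update_idem, update_eq_self]
      rw [e1, e2, hx.2, hx'.2, hxx]
    rw [hcard]
    refine hcnt (fL F u v (s₀, xh l y) : (Fin (n v) → ℝ) →ₗ[ℝ] (Fin (n u) → ℝ)) ⊥ P 0 ?_ hPr hPc
      (by simp) (Nat.zero_le _) K _ hK ?_ ?_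
    · intro z
      refine (ContinuousLinearMap.le_opNorm _ z).trans ?_
      gcongr
      exact (hA' _ hp).trans (le_max_right _ _)
    · intro z hz
      obtain ⟨x, hx, rfl⟩ := Finset.mem_image.1 hz
      rw [Finset.mem_filter] at hx
      exact ((hY x hx.1).2.1 v huv).2.2
    · intro z hz z' hz'
      obtain ⟨x, hx, rfl⟩ := Finset.mem_image.1 hz
      obtain ⟨x', hx', rfl⟩ := Finset.mem_image.1 hz'
      rw [Finset.mem_filter] at hx hx'
      refine ⟨0, Submodule.zero_mem _, ?_⟩
      rw [sub_zero]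
      have e1 := comb_eq huv l s₀ x x' (hx.2.trans hx'.2.symm)
      rw [hx.2, map_smul] at e1
      have e2 : (fL F u v (s₀, xh l y)) (ic (x v) - ic (x' v)) = (2 : ℝ) ^ (l v + 1) •
          ((∑ i : Wi F u, s₀ i • dd F i.1 u (xh l x)) -
            ∑ i : Wi F u, s₀ i • dd F i.1 u (xh l x')) := by
        rw [e1, smul_smul, mul_inv_cancel₀ (by positivity), one_smul]
      have e3 := (hY x hx.1).2.2
      have e4 := (hY x' hx'.1).2.2
      have e5 := ((hY x hx.1).2.1 v huv).1
      have e6 := ((hY x hx.1).2.1 v huv).2.2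
      change ‖(fL F u v (s₀, xh l y)) (ic (x v) - ic (x' v))‖ ≤ A₁
      rw [e2, norm_smul, norm_pow, Real.norm_ofNat]
      set g₁ := ∑ i : Wi F u, s₀ i • dd F i.1 u (xh l x)
      set g₂ := ∑ i : Wi F u, s₀ i • dd F i.1 u (xh l x')
      calc (2 : ℝ) ^ (l v + 1) * ‖g₁ - g₂‖ ≤ (2 * K) * (‖g₁‖ + ‖g₂‖) := by
            gcongr
            · rw [pow_succ]
              linarith
            · exact norm_sub_le _ _
        _ = 2 * (K * ‖g₁‖ + K * ‖g₂‖) := by ring
        _ ≤ 4 * A := by linarith
        _ ≤ A₁ := le_max_left _ _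
  have hvE : v ∈ Finset.univ.erase u := Finset.mem_erase.2 ⟨huv, Finset.mem_univ _⟩
  have hsum : ∑ t ∈ Finset.univ.erase u, n t = n v + ∑ t ∈ E, n t :=
    (Finset.add_sum_erase _ _ hvE).symm
  have hY'c : (Y'.card : ℝ) ≤ (3 * K) ^ (∑ t ∈ E, n t) := by
    refine le_trans ?_ (card_BxA (n := n) E hK)
    exact_mod_cast Finset.card_le_card hsub
  have hnv : n v - (D + 1 - 0) + (D + 1) = n v := by
    have := hn v
    omega
  calc (Y.card : ℝ) * K ^ (D + 1)
      = (∑ y ∈ Y', ((Y.filter fun x => update x v 0 = y).card : ℝ)) * K ^ (D + 1) := by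
        rw [Finset.card_eq_sum_card_fiberwise hmaps]
        push_cast
        rfl
    _ ≤ (∑ y ∈ Y', C * K ^ (n v - (D + 1 - 0))) * K ^ (D + 1) := by
        gcongr with y hy
        exact hfib y hy
    _ = (Y'.card : ℝ) * (C * K ^ (n v - (D + 1 - 0))) * K ^ (D + 1) := by
        rw [Finset.sum_const, nsmul_eq_mul]
    _ ≤ (3 * K) ^ (∑ t ∈ E, n t) * (C * K ^ (n v - (D + 1 - 0))) * K ^ (D + 1) := by gcongr
    _ = 3 ^ (∑ t ∈ E, n t) * C * K ^ (∑ t ∈ Finset.univ.erase u, n t) := by
        rw [hsum, pow_add K (n v), mul_pow]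
        conv_rhs => rw [← hnv, pow_add]
        ring

end Pool.Agent.N868.MM
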