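import Mathlib
import Pool.Agent.N868.MM.LowC

/-!
Project MM, part E (the lower bound), last part.
-/

namespace Pool.Agent.N868.MM

set_option linter.unusedSectionVars false

open Matrix Module Filter Topology Function
open Pool.Agent.N852 (ic ic_add ic_sub ic_neg)
open Pool.Agent.N852.DD (Bl mem_Bl card_Bl norm_ic_ge norm_ic_le)
open Pool.Agent.H548.BL (lat orth mem_lat mem_orth rc)
open Pool.Agent.N852.MM

/-- The logarithm of the size. -/
noncomputable def lg {N : ℕ} (z : Fin N → ℤ) : ℕ := Nat.log 2 ⌊‖ic z‖⌋₊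

theorem lg_spec {N : ℕ} {z : Fin N → ℤ} (hz : z ≠ 0) :
    (2 : ℝ) ^ lg z ≤ ‖ic z‖ ∧ ‖ic z‖ ≤ 2 ^ (lg z + 1) := by
  have h1 := norm_ic_ge hz
  have h2 : ⌊‖ic z‖⌋₊ ≠ 0 := (Nat.floor_pos.2 h1).ne'
  constructor
  · have h3 : ((2 ^ lg z : ℕ) : ℝ) ≤ (⌊‖ic z‖⌋₊ : ℝ) := by
      exact_mod_cast Nat.pow_log_le_self 2 h2
    push_cast at h3
    exact h3.trans (Nat.floor_le (by linarith))
  · have h3 : ⌊‖ic z‖⌋₊ + 1 ≤ 2 ^ (lg z + 1) := Nat.lt_pow_succ_log_self (by norm_num) _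
    have h4 : ((⌊‖ic z‖⌋₊ + 1 : ℕ) : ℝ) ≤ ((2 ^ (lg z + 1) : ℕ) : ℝ) := by exact_mod_cast h3
    push_cast at h4
    exact (Nat.lt_floor_add_one _).le.trans h4

theorem lg_le {N : ℕ} {z : Fin N → ℤ} {K : ℝ} (h : ‖ic z‖ ≤ K) : lg z ≤ Nat.log 2 ⌊K⌋₊ :=
  Nat.log_mono_right (Nat.floor_mono h)

variable {V : Type} [DecidableEq V] {n : V → ℕ} {k : ℕ} {F : Sys n k} [Fintype V]

/-- The size of the derivatives. -/
theorem dd_le {C : ℝ} (hval : ∀ (i : Fin k) (x : Tup n ℝ) (K : ℝ), (∀ v ∈ F.e i, ‖x v‖ ≤ K) →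
    |ev F i x| ≤ C * K ^ (F.e i).card) (hC : 1 ≤ C) (i : Fin k) (u : V) (x : Tup n ℝ)
    (hx : ∀ t, t ≠ u → ‖x t‖ ≤ 1) : ‖dd F i u x‖ ≤ C := by
  rw [pi_norm_le_iff_of_nonneg (by linarith)]
  intro c
  rw [Real.norm_eq_abs]
  have h1 := hval i (update x u (Pi.single c 1)) 1 (by
    intro t _
    by_cases ht : t = u
    · subst ht
      rw [update_self, pi_norm_le_iff_of_nonneg zero_le_one]
      intro b
      by_cases hb : b = c
      · subst hb
        rw [Pi.single_eq_same, norm_one]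
      · rw [Pi.single_eq_of_ne hb, norm_zero]
        exact zero_le_one
    · rw [update_of_ne ht]
      exact hx t ht)
  rw [one_pow, mul_one] at h1
  exact h1

/-- **The bound for one class.** -/
theorem class_bound (hA : CellP) (hB : CntP) (hC : CptP) {D : ℕ} (h2 : ∀ i, 2 ≤ (F.e i).card)
    (hRC : RC F D) (hn : ∀ u, D < n u) (u : V) :
    ∃ C : ℝ, 1 ≤ C ∧ ∀ (K : ℝ) (l : V → ℕ) (Z : Finset (Tup n ℤ)), 1 ≤ K →
      (∀ x ∈ Z, x u = 0 ∧ (∀ t, t ≠ u → (2 : ℝ) ^ l t ≤ ‖ic (x t)‖ ∧ ‖ic (x t)‖ ≤ 2 ^ (l t + 1) ∧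
        ‖ic (x t)‖ ≤ K) ∧ ¬ LinearIndependent ℝ (der F u (iT x))) →
      (∑ x ∈ Z, K ^ finrank ℝ (rl (der F u (iT x)))) * K ^ (D + 1) ≤
        C * K ^ dg F u * K ^ (∑ t ∈ Finset.univ.erase u, n t) := by
  classical
  obtain ⟨C₀, hC₀, hval⟩ := val_le F
  obtain ⟨C₁, hC₁, hcell⟩ := hA (Wi F u)
  have hq : ∀ i₀ : Wi F u, ∃ C : ℝ, 1 ≤ C ∧ ∀ (K : ℝ) (l : V → ℕ)
      (s₀ : EuclideanSpace ℝ (Wi F u)) (Y : Finset (Tup n ℤ)), 1 ≤ K →
      1 / (Fintype.card (Wi F u) : ℝ) ≤ |s₀ i₀| → ‖s₀‖ ≤ 3 * Fintype.card (Wi F u) →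
      (∀ x ∈ Y, x u = 0 ∧ (∀ t, t ≠ u → (2 : ℝ) ^ l t ≤ ‖ic (x t)‖ ∧ ‖ic (x t)‖ ≤ 2 ^ (l t + 1) ∧
        ‖ic (x t)‖ ≤ K) ∧ K * ‖∑ i : Wi F u, s₀ i • dd F i.1 u (xh l x)‖ ≤
          Fintype.card (Wi F u) * C₀) →
      (Y.card : ℝ) * K ^ (D + 1) ≤ C * K ^ (∑ t ∈ Finset.univ.erase u, n t) := by
    intro i₀
    obtain ⟨v, hv, hvu⟩ := Finset.exists_mem_ne (h2 i₀.1) u
    exact qbound hB hC hRC hn hvu i₀ hv _ (by positivity)
  choose Cq hCq1 hCq using hq
  have hsumq : 0 ≤ ∑ i₀, Cq i₀ := Finset.sum_nonneg fun i _ => by linarith [hCq1 i]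
  refine ⟨1 + C₁ * ∑ i₀, Cq i₀, by nlinarith, ?_⟩
  intro K l Z hK hZ
  have hK0 : 0 < K := by linarith
  set Sg := ∑ t ∈ Finset.univ.erase u, n t with hSg
  have hxh : ∀ x ∈ Z, ∀ t, t ≠ u → ‖xh l x t‖ ≤ 1 := by
    intro x hx t ht
    simp only [xh, iT]
    rw [norm_smul, norm_inv, norm_pow, Real.norm_ofNat, ← div_eq_inv_mul, div_le_one (by positivity)]
    exact ((hZ x hx).2.1 t ht).2.1
  have hfr : ∀ x : Tup n ℤ, finrank ℝ (rl (der F u (xh l x))) = finrank ℝ (rl (der F u (iT x))) :=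
    fun x => finrank_rl_scale u (fun t => ((2 : ℝ) ^ (l t + 1))⁻¹) (fun t => by positivity) (iT x)
  have h3 := hcell (Tup n ℤ) Z (fun x => rl (der F u (xh l x))) K
    ((∑ i₀, Cq i₀) * K ^ Sg / K ^ (D + 1)) hK (by positivity) (by
      intro x hx
      rw [hfr]
      exact one_le_rl (hZ x hx).2.2) (by
      intro s₀ Y hs1 hs2 hY
      obtain ⟨i₀, hi₀⟩ := exists_large hs1
      have h4 := hCq i₀ K l s₀ Y hK hi₀ hs2 (by
        intro x hx
        obtain ⟨hxZ, s, hs, _, _, hss⟩ := hY x hx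
        refine ⟨(hZ x hxZ).1, (hZ x hxZ).2.1, ?_⟩
        rw [mem_rl] at hs
        have e1 : ∑ i : Wi F u, s₀ i • dd F i.1 u (xh l x) =
            ∑ i : Wi F u, (s₀ i - s i) • dd F i.1 u (xh l x) := by
          simp only [sub_smul, Finset.sum_sub_distrib]
          have : ∑ i : Wi F u, s i • dd F i.1 u (xh l x) = 0 := hs
          rw [this, sub_zero]
        rw [e1]
        have e2 : ‖∑ i : Wi F u, (s₀ i - s i) • dd F i.1 u (xh l x)‖ ≤
            ∑ _i : Wi F u, 1 / K * C₀ := by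
          refine (norm_sum_le _ _).trans (Finset.sum_le_sum fun i _ => ?_)
          rw [norm_smul]
          have e3 : ‖s₀ i - s i‖ ≤ 1 / K := by
            have e4 : ‖(s - s₀) i‖ ≤ ‖s - s₀‖ := PiLp.norm_apply_le _ _
            rw [PiLp.sub_apply, norm_sub_rev] at e4
            exact e4.trans hss
          have e4 := dd_le hval hC₀ i.1 u (xh l x) (hxh x hxZ)
          gcongr
        rw [Finset.sum_const, Finset.card_univ, nsmul_eq_mul] at e2
        calc K * ‖∑ i : Wi F u, (s₀ i - s i) • dd F i.1 u (xh l x)‖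
            ≤ K * (Fintype.card (Wi F u) * (1 / K * C₀)) := by gcongr
          _ = Fintype.card (Wi F u) * C₀ := by field_simp)
      rw [le_div_iff₀ (by positivity)]
      refine h4.trans ?_
      have h5 : Cq i₀ ≤ ∑ i₀, Cq i₀ :=
        Finset.single_le_sum (f := Cq) (fun i _ => by linarith [hCq1 i]) (Finset.mem_univ i₀)
      gcongr)
  simp only [hfr] at h3
  calc (∑ x ∈ Z, K ^ finrank ℝ (rl (der F u (iT x)))) * K ^ (D + 1)
      ≤ (C₁ * K ^ Fintype.card (Wi F u) * ((∑ i₀, Cq i₀) * K ^ Sg / K ^ (D + 1))) * K ^ (D + 1) := by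
        gcongr
    _ = C₁ * (∑ i₀, Cq i₀) * K ^ dg F u * K ^ Sg := by
        unfold dg
        field_simp
    _ ≤ (1 + C₁ * ∑ i₀, Cq i₀) * K ^ dg F u * K ^ Sg := by
        gcongr
        linarith

/-- **The bad solutions.** -/
theorem bad_bound (hA : CellP) (hB : CntP) (hC : CptP) {a : V → ℕ} {D : ℕ}
    (h2 : ∀ i, 2 ≤ (F.e i).card) (ha : ∀ v, a v + dg F v = n v)
    (hRC : RC F D) (hn : ∀ u, D < n u) (u : V) :
    ∃ C : ℝ, 1 ≤ C ∧ ∀ (K : ℝ) (S : Finset (Tup n ℤ)), 1 ≤ K →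
      (∀ x ∈ S, (∀ t, ‖ic (x t)‖ ≤ K) ∧ Inc F x ∧ (∀ t, x t ≠ 0) ∧ ¬ GI F u x) →
      (S.card : ℝ) * K ^ (D + 1) ≤
        C * ((Nat.log 2 ⌊K⌋₊ + 1 : ℕ) : ℝ) ^ Fintype.card V * K ^ (∑ t, n t) := by
  classical
  obtain ⟨C, hC1, hcl⟩ := class_bound hA hB hC h2 hRC hn u
  refine ⟨6 ^ n u * C, one_le_mul_of_one_le_of_one_le (one_le_pow₀ (by norm_num)) hC1, ?_⟩
  intro K S hK hS
  have hK0 : 0 < K := by linarith
  set Z := S.image fun x => update x u 0 with hZ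
  set j : Tup n ℤ → ℕ := fun y => finrank ℝ (rl (der F u (iT y))) with hj
  have hmaps : ∀ x ∈ S, update x u 0 ∈ Z := fun x hx => Finset.mem_image_of_mem _ hx
  have hZmem : ∀ y ∈ Z, y u = 0 ∧ (∀ t, ‖ic (y t)‖ ≤ K) ∧ (∀ t, t ≠ u → y t ≠ 0) ∧
      ¬ LinearIndependent ℝ (der F u (iT y)) := by
    intro y hy
    obtain ⟨x, hx, rfl⟩ := Finset.mem_image.1 hy
    obtain ⟨h3, h4, h5, h6⟩ := hS x hx
    refine ⟨update_self _ _ _, fun t => ?_, fun t ht => ?_, ?_⟩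
    · by_cases ht : t = u
      · subst ht
        rw [update_self, ic_zero, norm_zero]
        exact hK0.le
      · rw [update_of_ne ht]
        exact h3 t
    · rw [update_of_ne ht]
      exact h5 t
    · rw [iT_update, der_update]
      exact h6
  have hfib : ∀ y ∈ Z, ((S.filter fun x => update x u 0 = y).card : ℝ) ≤
      6 ^ n u * K ^ a u * K ^ j y := by
    intro y hy
    have h3 : (S.filter fun x => update x u 0 = y).card ≤ (FX F u y K).card := by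
      apply Finset.card_le_card_of_injOn (fun x => x u)
      · intro x hx
        rw [Finset.mem_coe, Finset.mem_filter] at hx
        rw [Finset.mem_coe, mem_FX hK0.le]
        obtain ⟨h3, h4, _, _⟩ := hS x hx.1
        refine ⟨h3 u, ?_⟩
        rw [mem_lat, ← hx.2, der_update]
        exact ((inc_iff u x).1 h4).2
      · intro x hx x' hx' hxx
        rw [Finset.mem_coe, Finset.mem_filter] at hx hx'
        simp only at hxx
        have e1 : x = update (update x u 0) u (x u) := by rw [update_idem, update_eq_self]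
        have e2 : x' = update (update x' u 0) u (x' u) := by rw [update_idem, update_eq_self]
        rw [e1, e2, hx.2, hx'.2, hxx]
    have h4 : ((FX F u y K).card : ℝ) ≤ (6 * K) ^ (a u + j y) :=
      card_FX_le hK (finrank_orth_rl ha u y).le
    have h5 : a u + j y ≤ n u := by
      have := rl_le_card (der F u (iT y))
      have h6 := ha u
      unfold dg at h6
      simp only [hj]
      omega
    calc ((S.filter fun x => update x u 0 = y).card : ℝ) ≤ ((FX F u y K).card : ℝ) := by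
          exact_mod_cast h3
      _ ≤ (6 * K) ^ (a u + j y) := h4
      _ = 6 ^ (a u + j y) * (K ^ a u * K ^ j y) := by rw [mul_pow, pow_add K]
      _ ≤ 6 ^ n u * (K ^ a u * K ^ j y) := by
          gcongr
          norm_num
      _ = _ := by ring
  set Ls := Fintype.piFinset fun _ : V => Finset.range (Nat.log 2 ⌊K⌋₊ + 1) with hLs
  set cl : Tup n ℤ → V → ℕ := fun y t => lg (y t) with hcldef
  have hclm : ∀ y ∈ Z, cl y ∈ Ls := by
    intro y hy
    rw [hLs, Fintype.mem_piFinset]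
    intro t
    rw [Finset.mem_range]
    have := lg_le ((hZmem y hy).2.1 t)
    simp only [hcldef]
    omega
  have hLc : (Ls.card : ℝ) = ((Nat.log 2 ⌊K⌋₊ + 1 : ℕ) : ℝ) ^ Fintype.card V := by
    rw [hLs, Fintype.card_piFinset]
    simp only [Finset.card_range, Finset.prod_const, Finset.card_univ]
    push_cast
    ring
  have hcls : ∀ l ∈ Ls, (∑ y ∈ Z.filter (fun y => cl y = l), K ^ j y) * K ^ (D + 1) ≤
      C * K ^ dg F u * K ^ (∑ t ∈ Finset.univ.erase u, n t) := by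
    intro l _
    refine hcl K l _ hK ?_
    intro y hy
    rw [Finset.mem_filter] at hy
    obtain ⟨h3, h4, h5, h6⟩ := hZmem y hy.1
    refine ⟨h3, fun t ht => ?_, h6⟩
    have h7 := lg_spec (h5 t ht)
    have h8 : lg (y t) = l t := congrFun hy.2 t
    rw [h8] at h7
    exact ⟨h7.1, h7.2, h4 t⟩
  have hsum : ∑ t, n t = a u + dg F u + ∑ t ∈ Finset.univ.erase u, n t := by
    rw [ha u]
    exact (Finset.add_sum_erase _ _ (Finset.mem_univ u)).symm
  calc (S.card : ℝ) * K ^ (D + 1)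
      = (∑ y ∈ Z, ((S.filter fun x => update x u 0 = y).card : ℝ)) * K ^ (D + 1) := by
        rw [Finset.card_eq_sum_card_fiberwise hmaps]
        push_cast
        rfl
    _ ≤ (∑ y ∈ Z, 6 ^ n u * K ^ a u * K ^ j y) * K ^ (D + 1) := by
        gcongr with y hy
        exact hfib y hy
    _ = 6 ^ n u * K ^ a u * ∑ l ∈ Ls, ((∑ y ∈ Z.filter (fun y => cl y = l), K ^ j y) *
          K ^ (D + 1)) := by
        rw [← Finset.mul_sum, ← Finset.sum_mul, Finset.sum_fiberwise_of_maps_to hclm, mul_assoc]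
    _ ≤ 6 ^ n u * K ^ a u * ∑ l ∈ Ls, (C * K ^ dg F u *
          K ^ (∑ t ∈ Finset.univ.erase u, n t)) := by
        refine mul_le_mul_of_nonneg_left (Finset.sum_le_sum fun l hl => hcls l hl) ?_
        positivity
    _ = 6 ^ n u * C * (Ls.card : ℝ) * K ^ (∑ t, n t) := by
        rw [Finset.sum_const, nsmul_eq_mul, hsum, pow_add, pow_add]
        ring
    _ = _ := by rw [hLc]

/-- Powers of logarithms. -/
theorem log_small (m : ℕ) {B : ℝ} (hB : 0 ≤ B) : ∃ K₀ : ℝ, 1 ≤ K₀ ∧ ∀ K : ℝ, K₀ ≤ K →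
    B * ((Nat.log 2 ⌊K⌋₊ + 1 : ℕ) : ℝ) ^ m ≤ K := by
  have h1 := (Real.isLittleO_pow_log_id_atTop (n := m)).bound
    (show (0 : ℝ) < 1 / (B * 3 ^ m + 1) by positivity)
  obtain ⟨K₁, hK₁⟩ := eventually_atTop.1 h1
  refine ⟨max K₁ 3, le_trans (by norm_num) (le_max_right _ _), ?_⟩
  intro K hK
  have h2 := hK₁ K ((le_max_left _ _).trans hK)
  have hK3 : 3 ≤ K := (le_max_right _ _).trans hK
  have hK0 : 0 < K := by linarith
  have hlog : 1 ≤ Real.log K := by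
    rw [Real.le_log_iff_exp_le hK0]
    have := Real.exp_one_lt_d9
    linarith
  have hl2 : 0.6931471803 < Real.log 2 := Real.log_two_gt_d9
  have h3 : ((Nat.log 2 ⌊K⌋₊ : ℕ) : ℝ) * Real.log 2 ≤ Real.log K := by
    have h4 : ((2 ^ Nat.log 2 ⌊K⌋₊ : ℕ) : ℝ) ≤ (⌊K⌋₊ : ℝ) := by
      exact_mod_cast Nat.pow_log_le_self 2 (Nat.floor_pos.2 (by linarith)).ne'
    push_cast at h4
    have h5 : (2 : ℝ) ^ Nat.log 2 ⌊K⌋₊ ≤ K := h4.trans (Nat.floor_le hK0.le)
    have h6 := Real.log_le_log (by positivity) h5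
    rwa [Real.log_pow] at h6
  have h4 : (((Nat.log 2 ⌊K⌋₊ + 1 : ℕ)) : ℝ) ≤ 3 * Real.log K := by
    push_cast
    have h5 : (0 : ℝ) ≤ (Nat.log 2 ⌊K⌋₊ : ℕ) := Nat.cast_nonneg _
    have h6 : ((Nat.log 2 ⌊K⌋₊ : ℕ) : ℝ) ≤ 2 * Real.log K := by nlinarith
    linarith
  have h5 : (((Nat.log 2 ⌊K⌋₊ + 1 : ℕ)) : ℝ) ^ m ≤ 3 ^ m * Real.log K ^ m := by
    rw [← mul_pow]
    gcongr
  rw [Real.norm_of_nonneg (by positivity), id, Real.norm_of_nonneg hK0.le] at h2
  calc B * (((Nat.log 2 ⌊K⌋₊ + 1 : ℕ)) : ℝ) ^ m ≤ B * (3 ^ m * Real.log K ^ m) := by gcongr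
    _ ≤ B * (3 ^ m * (1 / (B * 3 ^ m + 1) * K)) := by gcongr
    _ = (B * 3 ^ m) / (B * 3 ^ m + 1) * K := by ring
    _ ≤ 1 * K := by
        gcongr
        rw [div_le_one (by positivity)]
        linarith
    _ = K := one_mul K

/-- **The lower bound.** -/
theorem lowP (hA : CellP) (hB : CntP) (hC : CptP) : LowP := by
  classical
  intro V _ _ n k F a D h2 hv ha hD hRC
  have hn : ∀ u, D < n u := n_gt h2 hv ha hRC
  obtain ⟨C₁, hC₁, hpig⟩ := pigeon F h2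
  have hbad := fun u => bad_bound hA hB hC h2 ha hRC hn u
  choose C₂ hC₂ hbad using hbad
  set C₃ : ℝ := ∑ u, (3 ^ (∑ t ∈ Finset.univ.erase u, n t) + C₂ u) with hC₃
  have hC₃0 : 0 ≤ C₃ := Finset.sum_nonneg fun u _ => by
    have := hC₂ u
    positivity
  obtain ⟨K₀, hK₀, hlog⟩ := log_small (Fintype.card V) (B := 2 * C₁ * C₃) (by positivity)
  refine ⟨1 / (2 * C₁), K₀, by positivity, hK₀, ?_⟩
  intro K hK
  have hK1 : 1 ≤ K := hK₀.trans hK
  have hK0 : 0 < K := by linarith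
  set NN := ∑ t, n t with hNN
  set Lg : ℝ := ((Nat.log 2 ⌊K⌋₊ + 1 : ℕ) : ℝ) ^ Fintype.card V with hLg
  have hLg1 : 1 ≤ Lg := by
    apply one_le_pow₀
    push_cast
    have : (0 : ℝ) ≤ (Nat.log 2 ⌊K⌋₊ : ℕ) := Nat.cast_nonneg _
    linarith
  set S := SA F K Finset.univ with hS
  have hSm : ∀ x, x ∈ S ↔ (∀ t, ‖ic (x t)‖ ≤ K) ∧ Inc F x := by
    intro x
    rw [hS, mem_SA hK0.le]
    constructor
    · rintro ⟨h3, _, h4⟩
      exact ⟨fun t => h3 t (Finset.mem_univ _), fun i => h4 i (Finset.subset_univ _)⟩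
    · rintro ⟨h3, h4⟩
      exact ⟨fun t _ => h3 t, fun t ht => absurd (Finset.mem_univ _) ht, fun i _ => h4 i⟩
  set S0 : V → Finset (Tup n ℤ) := fun t => S.filter fun x => x t = 0 with hS0
  set S1 : V → Finset (Tup n ℤ) := fun u => S.filter fun x => (∀ t, x t ≠ 0) ∧ ¬ GI F u x with hS1
  have hc0 : ∀ t, ((S0 t).card : ℝ) * K ^ (D + 1) ≤
      3 ^ (∑ s ∈ Finset.univ.erase t, n s) * Lg * K ^ NN := by
    intro t
    have h3 : S0 t ⊆ Bx n fun s => if s ∈ Finset.univ.erase t then K else 0 := by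
      intro x hx
      simp only [hS0] at hx
      rw [Finset.mem_filter, hSm] at hx
      rw [mem_BxA hK0.le]
      refine ⟨fun s _ => hx.1.1 s, fun s hs => ?_⟩
      have h4 : s = t := by
        by_contra h
        exact hs (Finset.mem_erase.2 ⟨h, Finset.mem_univ _⟩)
      subst h4
      exact hx.2
    have h4 : ((S0 t).card : ℝ) ≤ (3 * K) ^ (∑ s ∈ Finset.univ.erase t, n s) := by
      refine le_trans ?_ (card_BxA (n := n) _ hK1)
      exact_mod_cast Finset.card_le_card h3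
    have h5 : K ^ (D + 1) ≤ K ^ n t := pow_le_pow_right₀ hK1 (hn t)
    have h6 : NN = n t + ∑ s ∈ Finset.univ.erase t, n s :=
      (Finset.add_sum_erase _ _ (Finset.mem_univ t)).symm
    calc ((S0 t).card : ℝ) * K ^ (D + 1)
        ≤ (3 * K) ^ (∑ s ∈ Finset.univ.erase t, n s) * K ^ n t := by gcongr
      _ = 3 ^ (∑ s ∈ Finset.univ.erase t, n s) * 1 * K ^ NN := by
          rw [h6, pow_add, mul_pow]
          ring
      _ ≤ 3 ^ (∑ s ∈ Finset.univ.erase t, n s) * Lg * K ^ NN := by gcongr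
  have hc1 : ∀ u, ((S1 u).card : ℝ) * K ^ (D + 1) ≤ C₂ u * Lg * K ^ NN := by
    intro u
    refine hbad u K (S1 u) hK1 ?_
    intro x hx
    simp only [hS1] at hx
    rw [Finset.mem_filter, hSm] at hx
    exact ⟨hx.1.1, hx.1.2, hx.2.1, hx.2.2⟩
  have hcov : S ⊆ UX F (GI F) (fun _ => K) ∪ Finset.univ.biUnion fun u => S0 u ∪ S1 u := by
    intro x hx
    have hx' := (hSm x).1 hx
    rw [Finset.mem_union, mem_UX (fun _ => hK0.le)]
    by_cases h3 : ∀ u, GI F u x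
    · exact Or.inl ⟨hx'.1, hx'.2, h3⟩
    · right
      rw [Finset.mem_biUnion]
      by_cases h4 : ∀ t, x t ≠ 0
      · push Not at h3
        obtain ⟨u, hu⟩ := h3
        exact ⟨u, Finset.mem_univ _, Finset.mem_union_right _ (Finset.mem_filter.2 ⟨hx, h4, hu⟩)⟩
      · push Not at h4
        obtain ⟨t, ht⟩ := h4
        exact ⟨t, Finset.mem_univ _, Finset.mem_union_left _ (Finset.mem_filter.2 ⟨hx, ht⟩)⟩
  have hcard : (S.card : ℝ) ≤ ((UX F (GI F) (fun _ => K)).card : ℝ) +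
      ∑ u, (((S0 u).card : ℝ) + ((S1 u).card : ℝ)) := by
    have h3 := (Finset.card_le_card hcov).trans ((Finset.card_union_le _ _).trans
      (Nat.add_le_add_left (Finset.card_biUnion_le.trans
        (Finset.sum_le_sum fun u _ => Finset.card_union_le _ _)) _))
    exact_mod_cast h3
  have h3 : (S.card : ℝ) * K ^ (D + 1) ≤
      ((UX F (GI F) (fun _ => K)).card : ℝ) * K ^ (D + 1) + C₃ * Lg * K ^ NN := by
    calc (S.card : ℝ) * K ^ (D + 1) ≤ (((UX F (GI F) (fun _ => K)).card : ℝ) +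
        ∑ u, (((S0 u).card : ℝ) + ((S1 u).card : ℝ))) * K ^ (D + 1) := by gcongr
      _ = ((UX F (GI F) (fun _ => K)).card : ℝ) * K ^ (D + 1) +
          ∑ u, (((S0 u).card : ℝ) * K ^ (D + 1) + ((S1 u).card : ℝ) * K ^ (D + 1)) := by
          rw [add_mul, Finset.sum_mul]
          congr 1
          exact Finset.sum_congr rfl fun u _ => add_mul _ _ _
      _ ≤ ((UX F (GI F) (fun _ => K)).card : ℝ) * K ^ (D + 1) +
          ∑ u, (3 ^ (∑ t ∈ Finset.univ.erase u, n t) + C₂ u) * (Lg * K ^ NN) := by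
          gcongr with u _
          have := hc0 u
          have := hc1 u
          linarith
      _ = _ := by
          rw [← Finset.sum_mul, mul_assoc C₃]
  have hDsum : NN = D + ∑ v, a v := by
    rw [hNN, hD, ← sum_dg F, ← Finset.sum_add_distrib]
    exact Finset.sum_congr rfl fun v _ => by rw [← ha v, add_comm]
  have hNm : Nm a (fun _ : V => K) = K ^ (∑ v, a v) := by
    unfold Nm
    rw [Finset.prod_pow_eq_pow_sum]
  have h4 := hpig K hK1
  rw [← hD] at h4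
  -- the main inequality
  have h5 : K ^ NN * K ≤ C₁ * (((UX F (GI F) (fun _ => K)).card : ℝ) * K ^ (D + 1) +
      C₃ * Lg * K ^ NN) := by
    calc K ^ NN * K ≤ (C₁ * K ^ D * (S.card : ℝ)) * K := by gcongr
      _ = C₁ * ((S.card : ℝ) * K ^ (D + 1)) := by ring
      _ ≤ _ := by gcongr
  have h6 : C₁ * (C₃ * Lg * K ^ NN) ≤ K ^ NN * K / 2 := by
    have h7 := hlog K hK
    calc C₁ * (C₃ * Lg * K ^ NN) = (2 * C₁ * C₃ * Lg) * K ^ NN / 2 := by ring
      _ ≤ K * K ^ NN / 2 := by gcongr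
      _ = _ := by ring
  have h7 : K ^ NN * K / 2 ≤ C₁ * (((UX F (GI F) (fun _ => K)).card : ℝ) * K ^ (D + 1)) := by
    rw [mul_add] at h5
    linarith
  rw [hNm, div_mul_eq_mul_div, one_mul, div_le_iff₀ (by positivity)]
  have h8 : K ^ NN * K / 2 = K ^ (∑ v, a v) / 2 * K ^ (D + 1) := by
    rw [hDsum, pow_add, pow_succ]
    ring
  rw [h8] at h7
  have h9 : K ^ (∑ v, a v) / 2 ≤ C₁ * ((UX F (GI F) (fun _ => K)).card : ℝ) := by
    apply le_of_mul_le_mul_right _ (by positivity : 0 < K ^ (D + 1))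
    calc K ^ (∑ v, a v) / 2 * K ^ (D + 1) ≤ _ := h7
      _ = _ := by ring
  linarith

end Pool.Agent.N868.MM
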